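import Pool.Agent.Helper66_D2.Tool
import Pool.Agent.Helper67_D1.Sud

/-!
# Squad PP, part D2, module SUD: every irreducible representation of `N_G(P₁)` over `b₁` occurs
-/

open scoped BigOperators

set_option linter.unusedSectionVars false

noncomputable section

namespace Pool.Agent.PP.CD2.H29

open Pool.Agent.PP Pool.Agent.Helper51_AWC Pool.Agent.Helper79_WRA

section emb

variable {F : Type} [Field F] {G : Type} [Group G] [Finite G]

/-- an embedding of `κ` outside of the norm -/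
structure EmbW (N : Subgroup G) {m : ℕ} (κ : N →* Matrix (Fin m) (Fin m) F) {V : Type}
    [AddCommGroup V] [Module F V] (ρ : Representation F G V) (w : G → F) (r : ℕ)
    (ι : (Fin m → F) →ₗ[F] V) : Prop where
  int : ∀ (n : N) (u : Fin m → F), ι ((κ n).mulVec u) = ρ n (ι u)
  nt : ∃ u, ι u ∉ rngW ρ w r

theorem evV_int {V V' : Type} [AddCommGroup V] [Module F V] [AddCommGroup V'] [Module F V']
    {ρ : Representation F G V} {ρ' : Representation F G V'} {φ : V →ₗ[F] V'}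
    (h : ∀ g v, φ (ρ g v) = ρ' g (φ v)) (a : G → F) (v : V) :
    φ (evV ρ a v) = evV ρ' a (φ v) := by
  have := Fintype.ofFinite G
  rw [D66.evV_apply, D66.evV_apply, map_sum]
  refine Finset.sum_congr rfl fun g _ => ?_
  rw [map_smul, h]

theorem evV_int_pow {V V' : Type} [AddCommGroup V] [Module F V] [AddCommGroup V'] [Module F V']
    {ρ : Representation F G V} {ρ' : Representation F G V'} {φ : V →ₗ[F] V'}
    (h : ∀ g v, φ (ρ g v) = ρ' g (φ v)) (a : G → F) (r : ℕ) (v : V) :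
    φ (((evV ρ a) ^ r) v) = ((evV ρ' a) ^ r) (φ v) := by
  induction r with
  | zero => rw [pow_zero, pow_zero]; rfl
  | succ r ih =>
    rw [pow_succ', pow_succ', Module.End.mul_apply, Module.End.mul_apply, evV_int h, ih]

theorem mem_rngW {V : Type} [AddCommGroup V] [Module F V] {ρ : Representation F G V}
    {w : G → F} {r : ℕ} {v : V} : v ∈ rngW ρ w r ↔ ∃ y, ((evV ρ w) ^ r) y = v := Iff.rfl

/-- the induced module, the embedding and the evaluation at one -/
theorem exists_ind {N : Subgroup G} {m : ℕ} (κ : N →* Matrix (Fin m) (Fin m) F) :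
    ∃ (V : Type) (_ : AddCommGroup V) (_ : Module F V) (_ : FiniteDimensional F V)
      (ρ : Representation F G V) (ι : (Fin m → F) →ₗ[F] V) (E : V →ₗ[F] (Fin m → F)),
      (∀ (n : N) (u : Fin m → F), ι ((κ n).mulVec u) = ρ n (ι u)) ∧ (∀ u, E (ι u) = u) ∧
      ∀ (n : N) (v : V), E (ρ n v) = (κ n).mulVec (E v) := by
  classical
  let τ : Representation F N (Fin m → F) := mrep κ
  have hτ : ∀ n w, τ n w = (κ n).mulVec w := fun n w => rfl
  let Y : Submodule F (G → (Fin m → F)) := Representation.coindV N.subtype τ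
  let ρ : Representation F G Y := Representation.coind N.subtype τ
  have hρ : ∀ (g : G) (y : Y) (x : G), (ρ g y : G → (Fin m → F)) x = (y : G → (Fin m → F)) (x * g) :=
    fun g y x => rfl
  let ι₀ : (Fin m → F) →ₗ[F] (G → (Fin m → F)) :=
    { toFun := fun w x => if h : x ∈ N then (κ ⟨x, h⟩).mulVec w else 0
      map_add' := by
        intro a b
        funext x
        by_cases h : x ∈ N
        · simp only [h, dif_pos, Pi.add_apply, Matrix.mulVec_add]
        · simp only [h, dif_neg, not_false_eq_true, Pi.add_apply, add_zero]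
      map_smul' := by
        intro c a
        funext x
        by_cases h : x ∈ N
        · simp only [h, dif_pos, Pi.smul_apply, Matrix.mulVec_smul, RingHom.id_apply]
        · simp only [h, dif_neg, not_false_eq_true, Pi.smul_apply, smul_zero] }
  have hι1 : ∀ w (x : N), ι₀ w x = (κ x).mulVec w := by
    intro w x
    change (if h : (x : G) ∈ N then (κ ⟨x, h⟩).mulVec w else 0) = _
    rw [dif_pos x.2]
  have hι0 : ∀ w x, x ∉ N → ι₀ w x = 0 := by
    intro w x hx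
    change (if h : x ∈ N then (κ ⟨x, h⟩).mulVec w else 0) = _
    rw [dif_neg hx]
  have hιY : ∀ w, ι₀ w ∈ Y := by
    intro w
    rw [Representation.mem_coindV]
    intro n x
    change ι₀ w ((n : G) * x) = (κ n).mulVec (ι₀ w x)
    by_cases hx : x ∈ N
    · have h1 := hι1 w (n * ⟨x, hx⟩)
      have h2 := hι1 w ⟨x, hx⟩
      rw [Subgroup.coe_mul] at h1
      rw [h1, h2, Matrix.mulVec_mulVec, ← map_mul]
    · rw [hι0 w x hx, Matrix.mulVec_zero, hι0]
      intro h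
      exact hx ((Subgroup.mul_mem_cancel_left N n.2).1 h)
  let ι : (Fin m → F) →ₗ[F] Y := ι₀.codRestrict Y hιY
  have hι : ∀ w x, (ι w : G → (Fin m → F)) x = ι₀ w x := fun w x => rfl
  let E : Y →ₗ[F] (Fin m → F) := (LinearMap.proj (1 : G)) ∘ₗ Y.subtype
  have hE : ∀ y : Y, E y = (y : G → (Fin m → F)) 1 := fun y => rfl
  refine ⟨Y, inferInstance, inferInstance, inferInstance, ρ, ι, E, ?_, ?_, ?_⟩
  · intro n w
    apply Subtype.ext
    funext x
    rw [hι, hρ, hι]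
    by_cases hx : x ∈ N
    · have h1 := hι1 w (⟨x, hx⟩ * n)
      have h2 := hι1 ((κ n).mulVec w) ⟨x, hx⟩
      rw [Subgroup.coe_mul] at h1
      rw [h1, h2, Matrix.mulVec_mulVec, ← map_mul]
    · rw [hι0 _ x hx, hι0]
      intro h
      exact hx ((Subgroup.mul_mem_cancel_right N n.2).1 h)
  · intro u
    rw [hE, hι]
    have h3 := hι1 u 1
    rw [map_one, Matrix.one_mulVec] at h3
    exact h3
  · intro n v
    rw [hE, hE, hρ, one_mul]
    have h5 := (Representation.mem_coindV _ _ _).1 v.2 n 1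
    rw [mul_one, hτ] at h5
    exact h5

/-- `a`, supported on `N`, and the evaluation -/
theorem evV_proj {N : Subgroup G} {m : ℕ} {κ : N →* Matrix (Fin m) (Fin m) F} {V : Type}
    [AddCommGroup V] [Module F V] {ρ : Representation F G V} {E : V →ₗ[F] (Fin m → F)}
    (hE : ∀ (n : N) (v : V), E (ρ n v) = (κ n).mulVec (E v)) {a : G → F}
    (ha : ∀ x, x ∉ N → a x = 0) (v : V) :
    E (evV ρ a v) = (ev κ fun t : N => a t).mulVec (E v) := by
  have := Fintype.ofFinite G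
  have := Fintype.ofFinite N
  rw [D66.evV_apply, D1.H67.sum_sub (N := N)]
  · unfold ev
    rw [finsum_eq_sum_of_fintype, Matrix.sum_mulVec, map_sum]
    refine Finset.sum_congr rfl fun n _ => ?_
    rw [Matrix.smul_mulVec, map_smul, hE]
  · intro g hg
    rw [ha g hg, zero_smul]

end emb

section main

variable {F : Type} [Field F] {G : Type} [Group G] [Finite G]

theorem split_lin {V : Type} [AddCommGroup V] [Module F V] (A W : Submodule F V) :
    ∃ s : V →ₗ[F] V, ∀ v ∈ A ⊔ W, s v ∈ A ∧ v - s v ∈ W := by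
  let f : (A × W) →ₗ[F] V := LinearMap.coprod A.subtype W.subtype
  have hf : LinearMap.range f = A ⊔ W := by
    rw [LinearMap.range_coprod, Submodule.range_subtype, Submodule.range_subtype]
  obtain ⟨g, hg⟩ := f.rangeRestrict.exists_rightInverse_of_surjective f.range_rangeRestrict
  obtain ⟨s, hs⟩ := LinearMap.exists_extend (A.subtype ∘ₗ (LinearMap.fst F A W) ∘ₗ g)
  refine ⟨s, fun v hv => ?_⟩
  rw [← hf] at hv
  have h1 : s v = ((g ⟨v, hv⟩).1 : V) := by
    have := LinearMap.congr_fun hs ⟨v, hv⟩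
    exact this
  have h2 : f (g ⟨v, hv⟩) = v := by
    have := LinearMap.congr_fun hg ⟨v, hv⟩
    have h3 := congrArg Subtype.val this
    exact h3
  have h4 : ((g ⟨v, hv⟩).1 : V) + ((g ⟨v, hv⟩).2 : V) = v := h2
  rw [h1]
  refine ⟨(g ⟨v, hv⟩).1.2, ?_⟩
  have h5 : v - ((g ⟨v, hv⟩).1 : V) = ((g ⟨v, hv⟩).2 : V) := by
    rw [sub_eq_iff_eq_add, add_comm]
    exact h4.symm
  rw [h5]
  exact (g ⟨v, hv⟩).2.2

/-- `w` acts as zero on an irreducible representation of `N_G(P₁)`. -/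
theorem w_zero (hstw : StwStmt) {ℓ : ℕ} [Fact ℓ.Prime] (hF : GoodF ℓ F) {n : ℕ} {P : Subgroup G}
    {y₁ : G} {b w : G → F} (hD : D2S ℓ n (⊤ : Subgroup G) P y₁ b w) {m : ℕ}
    (κ : NY y₁ →* Matrix (Fin m) (Fin m) F) (hκ : IsIrr κ) :
    ∀ u, (ev κ fun t : NY y₁ => w t).mulVec u = 0 := by
  classical
  obtain ⟨V, _, _, _, ρ, ι, E, h1, h2, h3⟩ := exists_ind κ
  obtain ⟨-, -, -, -, -, hnil, hker, -, -, -, -⟩ := hstw ℓ F hF G n ⊤ P y₁ b w hD V ρ
  have hws : ∀ x, x ∉ NY y₁ → w x = 0 := by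
    intro x hx
    refine H66.ums_sw hD.ums x fun h => hx (H66.CY_le_NY y₁ ?_)
    exact h.2
  have hw : ∀ u, evV ρ w (ι u) = ι ((ev κ fun t : NY y₁ => w t).mulVec u) := fun u =>
    D1.H67.evV_emb h1 hws u
  have hinj : ∀ u, ι u = 0 → u = 0 := by
    intro u hu
    rw [← h2 u, hu, map_zero]
  set A := ev κ fun t : NY y₁ => w t with hA
  let K : Submodule F (Fin m → F) := LinearMap.ker (Matrix.mulVecLin A)
  have hK : ∀ u, u ∈ K ↔ A.mulVec u = 0 := fun u => Iff.rfl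
  have hstb : Stb ⊤ (mrep κ) K := by
    intro x _ u hu
    rw [hK] at hu ⊢
    apply hinj
    have h4 : evV ρ w (ι u) = 0 := by rw [hw, hu, map_zero]
    have h5 := hker x x.2 _ h4
    rw [← h1, hw] at h5
    exact h5
  have hpow : ∀ (r : ℕ) u, ((evV ρ w) ^ r) (ι u) = ι (((Matrix.mulVecLin A) ^ r) u) := by
    intro r
    induction r with
    | zero => intro u; rw [pow_zero, pow_zero]; rfl
    | succ r ih =>
      intro u
      rw [pow_succ, pow_succ, Module.End.mul_apply, Module.End.mul_apply, hw, ih]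
      rfl
  have hnil' : (Matrix.mulVecLin A) ^ (ℓ ^ (n + 1)) = 0 := by
    apply LinearMap.ext
    intro u
    apply hinj
    rw [← hpow, hnil]
    rfl
  have hK0 : K ≠ ⊥ := by
    intro hb
    have hinj2 : Function.Injective (Matrix.mulVecLin A) := LinearMap.ker_eq_bot.1 hb
    have h6 : Function.Injective (((Matrix.mulVecLin A) ^ (ℓ ^ (n + 1)) :
        (Fin m → F) →ₗ[F] (Fin m → F))) := by
      rw [Module.End.coe_pow]
      exact hinj2.iterate _
    rw [hnil'] at h6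
    have h7 : (fun _ => 1 : Fin m → F) = 0 := h6 rfl
    exact one_ne_zero (congrFun h7 ⟨0, hκ.1⟩)
  have htop := D1.H71.top_of_stb hκ hstb hK0
  intro u
  rw [← hK, htop]
  trivial

/-- SUD for the normaliser itself -/
theorem exists_simple_w (hspa : SpaStmt) (hstw : StwStmt) {ℓ : ℕ} [Fact ℓ.Prime] (hF : GoodF ℓ F)
    {n : ℕ} {P : Subgroup G} {y₁ : G} {b w : G → F} (hD : D2S ℓ n (⊤ : Subgroup G) P y₁ b w)
    {m : ℕ} (κ : NY y₁ →* Matrix (Fin m) (Fin m) F) (hκ : IsIrr κ)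
    (hb : ev κ (fun t : NY y₁ => bY y₁ b t) = 1) (d : ℕ) :
    ∀ (V : Type) [AddCommGroup V] [Module F V] [FiniteDimensional F V] (ρ : Representation F G V)
    (ι : (Fin m → F) →ₗ[F] V), EmbW (NY y₁) κ ρ w (ℓ ^ (n + 1) - 1) ι → Module.finrank F V = d →
    ∃ (k : ℕ) (σ : G →* Matrix (Fin k) (Fin k) F) (ι' : (Fin m → F) →ₗ[F] (Fin k → F)), IsIrr σ ∧
      EmbW (NY y₁) κ (mrep σ) w (ℓ ^ (n + 1) - 1) ι' := by
  classical
  have : IsAlgClosed F := hF.closed
  have hws : ∀ x, x ∉ NY y₁ → w x = 0 := by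
    intro x hx
    refine H66.ums_sw hD.ums x fun h => hx (H66.CY_le_NY y₁ ?_)
    exact h.2
  have hbs : ∀ x, x ∉ NY y₁ → bY y₁ b x = 0 := by
    intro x hx
    refine H66.ums_sb hD.ums x fun h => hx (H66.CY_le_NY y₁ ?_)
    exact h.2
  have hw0 := w_zero hstw hF hD κ hκ
  have hq : 0 < ℓ ^ (n + 1) := pow_pos (Fact.out : ℓ.Prime).pos _
  induction d using Nat.strong_induction_on with
  | _ d ih =>
  intro V _ _ _ ρ ι hι hd
  by_cases hs : ∀ W : Submodule F V, (∀ g, ∀ v ∈ W, ρ g v ∈ W) → W = ⊥ ∨ W = ⊤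
  · have hnt : Nontrivial V := by
      obtain ⟨u, hu⟩ := hι.nt
      refine ⟨ι u, 0, fun h => hu ?_⟩
      rw [h]
      exact zero_mem _
    obtain ⟨k, σ, e, hσ, he⟩ := H55.irr_of_simple ρ hs
    refine ⟨k, σ, e.toLinearMap ∘ₗ ι, hσ, ?_, ?_⟩
    · intro t u
      rw [LinearMap.comp_apply, LinearMap.comp_apply, hι.int]
      exact he t (ι u)
    · obtain ⟨u, hu⟩ := hι.nt
      refine ⟨u, fun hmem => hu ?_⟩
      obtain ⟨y, hy⟩ := hmem
      have he' : ∀ g v, e.symm.toLinearMap (mrep σ g v) = ρ g (e.symm.toLinearMap v) := by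
        intro g v
        apply e.injective
        change e (e.symm _) = e (ρ g (e.symm v))
        rw [LinearEquiv.apply_symm_apply, he, LinearEquiv.apply_symm_apply]
        rfl
      have h1 := congrArg e.symm.toLinearMap hy
      rw [evV_int_pow he'] at h1
      refine ⟨e.symm.toLinearMap y, ?_⟩
      rw [h1]
      change e.symm (e (ι u)) = ι u
      rw [LinearEquiv.symm_apply_apply]
  · push Not at hs
    obtain ⟨W, hW, hW0, hW1⟩ := hs
    by_cases hqt : ∀ u, ι u ∈ rngW ρ w (ℓ ^ (n + 1) - 1) ⊔ W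
    · -- the embedding into `W`
      obtain ⟨-, -, -, -, -, hnil, -, -, hstb, -, -⟩ := hstw ℓ F hF G n ⊤ P y₁ b w hD V ρ
      obtain ⟨s0, hs0⟩ := split_lin (rngW ρ w (ℓ ^ (n + 1) - 1)) W
      have hT : Stb (⊤ ⊓ NY y₁) ρ (LinearMap.range ι) := by
        rintro x hx _ ⟨u, rfl⟩
        exact ⟨(κ ⟨x, hx.2⟩).mulVec u, hι.int ⟨x, hx.2⟩ u⟩
      have hwι : ∀ u, evV ρ w (ι u) = 0 := by
        intro u
        rw [D1.H67.evV_emb hι.int hws, hw0, map_zero]
      obtain ⟨g', hg1, hg2⟩ := hspa ℓ F hF G n ⊤ P y₁ b w hD V V ρ ρ (LinearMap.range ι) hT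
        (by
          rintro _ ⟨u, rfl⟩
          rw [D1.H67.evV_emb hι.int hbs, hb, Matrix.one_mulVec]) s0 (by
          rintro _ ⟨u, rfl⟩
          rw [hwι, map_zero]
          obtain ⟨y, hy⟩ := (hs0 _ (hqt u)).1
          rw [← hy, ← Module.End.mul_apply, ← pow_succ', Nat.sub_add_cancel hq, hnil]
          rfl)
      have hnrm : Stb (⊤ ⊓ NY y₁) ρ (rngW ρ w (ℓ ^ (n + 1) - 1)) := by
        intro x hx
        exact hstb _ x hx.2
      have hWs : Stb (⊤ ⊓ NY y₁) ρ W := fun x _ v hv => hW x v hv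
      have hg3 : ∀ u, g' (ι u) ∈ rngW ρ w (ℓ ^ (n + 1) - 1) := by
        intro u
        have := hg2 (LinearMap.range ι) le_rfl hT _ hnrm 0 (by
          intro k _ v _
          rw [LinearMap.zero_apply, LinearMap.zero_apply, map_zero]) (by
          rintro _ ⟨u', rfl⟩
          rw [LinearMap.zero_apply, sub_zero]
          exact (hs0 _ (hqt u')).1) (ι u) ⟨u, rfl⟩
        rwa [LinearMap.zero_apply, sub_zero] at this
      have hg4 : ∀ u, ι u - g' (ι u) ∈ W := by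
        intro u
        have := hg2 (LinearMap.range ι) le_rfl hT W hWs LinearMap.id (by
          intro k _ v _
          rfl) (by
          rintro _ ⟨u', rfl⟩
          rw [LinearMap.id_apply, ← neg_sub]
          exact W.neg_mem (hs0 _ (hqt u')).2) (ι u) ⟨u, rfl⟩
        rw [LinearMap.id_apply, ← neg_sub] at this
        exact neg_mem_iff.1 this
      let τ : Representation F G W := ρ.subrepresentation W (fun g v hv => hW g v hv)
      let ι' : (Fin m → F) →ₗ[F] W := (ι - g' ∘ₗ ι).codRestrict W hg4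
      refine ih (Module.finrank F W) ?_ W τ ι' ⟨?_, ?_⟩ rfl
      · rw [← hd]
        exact Submodule.finrank_lt hW1
      · intro x u
        apply Subtype.ext
        change ι ((κ x).mulVec u) - g' (ι ((κ x).mulVec u)) = ρ x (ι u - g' (ι u))
        rw [hι.int, hg1 x ⟨trivial, x.2⟩ (ι u) ⟨u, rfl⟩, map_sub]
      · obtain ⟨u, hu⟩ := hι.nt
        refine ⟨u, fun hmem => hu ?_⟩
        obtain ⟨y, hy⟩ := hmem
        have hsub : ∀ g v, W.subtype (τ g v) = ρ g (W.subtype v) := fun g v => rfl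
        have h1 := congrArg W.subtype hy
        rw [evV_int_pow hsub] at h1
        have h2 : ((evV ρ w) ^ (ℓ ^ (n + 1) - 1)) (W.subtype y) = ι u - g' (ι u) := h1
        have h3 : ι u - g' (ι u) ∈ rngW ρ w (ℓ ^ (n + 1) - 1) := ⟨_, h2⟩
        have h4 := Submodule.add_mem _ h3 (hg3 u)
        rwa [sub_add_cancel] at h4
    · -- the embedding into `V / W`
      push Not at hqt
      obtain ⟨u, hu⟩ := hqt
      let τ : Representation F G (V ⧸ W) := ρ.quotient W (fun g v hv => hW g v hv)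
      refine ih (Module.finrank F (V ⧸ W)) ?_ (V ⧸ W) τ (W.mkQ ∘ₗ ι) ⟨?_, u, ?_⟩ rfl
      · have h1 := Submodule.finrank_quotient_add_finrank W
        have h2 : 0 < Module.finrank F W := by
          rw [Nat.pos_iff_ne_zero, Ne, Submodule.finrank_eq_zero]
          exact hW0
        omega
      · intro x u'
        rw [LinearMap.comp_apply, hι.int]
        rfl
      · intro hmem
        apply hu
        obtain ⟨y, hy⟩ := hmem
        obtain ⟨y, rfl⟩ := W.mkQ_surjective y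
        have hquo : ∀ g v, W.mkQ (ρ g v) = τ g (W.mkQ v) := fun g v => rfl
        rw [← evV_int_pow hquo, LinearMap.comp_apply, Submodule.mkQ_apply, Submodule.mkQ_apply,
          Submodule.Quotient.eq] at hy
        have h2 : ι u = ((evV ρ w) ^ (ℓ ^ (n + 1) - 1)) y +
            -(((evV ρ w) ^ (ℓ ^ (n + 1) - 1)) y - ι u) := by abel
        rw [h2]
        exact Submodule.add_mem_sup ⟨y, rfl⟩ (W.neg_mem hy)

/-- SUD for the normaliser itself -/
theorem sud_L (hspa : SpaStmt) (hkey : KeyStmt) (hprt : PrtStmt) (hebq : EbqStmt)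
    (hstw : StwStmt) (heig : EigStmt) {ℓ : ℕ} [Fact ℓ.Prime] (hF : GoodF ℓ F)
    {n : ℕ} {P : Subgroup G} {y₁ : G} {b w : G → F} (hD : D2S ℓ n (⊤ : Subgroup G) P y₁ b w)
    {m : ℕ} (κ : NY y₁ →* Matrix (Fin m) (Fin m) F) (hκ : IsIrr κ)
    (hb : ev κ (fun t : NY y₁ => bY y₁ b t) = 1) :
    ∃ (k : ℕ) (σ : G →* Matrix (Fin k) (Fin k) F) (ι : (Fin m → F) →ₗ[F] (Fin k → F)),
      IsIrr σ ∧ ev σ b = 1 ∧ EmbW (NY y₁) κ (mrep σ) w (ℓ ^ (n + 1) - 1) ι ∧
      (∀ u, ι u ∈ fixW (mrep σ) (bY y₁ b) w) ∧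
      fixW (mrep σ) (bY y₁ b) w ≤ LinearMap.range ι ⊔ rngW (mrep σ) w (ℓ ^ (n + 1) - 1) := by
  classical
  have : IsAlgClosed F := hF.closed
  have hws : ∀ x, x ∉ NY y₁ → w x = 0 := by
    intro x hx
    refine H66.ums_sw hD.ums x fun h => hx (H66.CY_le_NY y₁ ?_)
    exact h.2
  have hbs : ∀ x, x ∉ NY y₁ → bY y₁ b x = 0 := by
    intro x hx
    refine H66.ums_sb hD.ums x fun h => hx (H66.CY_le_NY y₁ ?_)
    exact h.2
  have hw0 := w_zero hstw hF hD κ hκ
  have hℓ2 : 2 ≤ ℓ ^ (n + 1) := by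
    calc 2 ≤ ℓ := (Fact.out : ℓ.Prime).two_le
      _ = ℓ ^ 1 := (pow_one ℓ).symm
      _ ≤ ℓ ^ (n + 1) := Nat.pow_le_pow_right (Fact.out : ℓ.Prime).pos (by omega)
  -- the induced module
  obtain ⟨V, _, _, _, ρ, ι₀, E, h1, h2, h3⟩ := exists_ind κ
  have hι₀ : EmbW (NY y₁) κ ρ w (ℓ ^ (n + 1) - 1) ι₀ := by
    refine ⟨h1, fun _ => 1, ?_⟩
    rintro ⟨y, hy⟩
    obtain ⟨r, hr⟩ : ∃ r, ℓ ^ (n + 1) - 1 = r + 1 := ⟨ℓ ^ (n + 1) - 2, by omega⟩
    rw [hr, pow_succ', Module.End.mul_apply] at hy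
    have h4 := congrArg E hy
    rw [evV_proj h3 hws, hw0, h2] at h4
    exact one_ne_zero (congrFun h4 ⟨0, hκ.1⟩).symm
  obtain ⟨k, σ, ι, hσ, hι⟩ := exists_simple_w hspa hstw hF hD κ hκ hb _ V ρ ι₀ hι₀ rfl
  obtain ⟨hs1, hs2, hs3, hs4, hs5, hnil, hker, hnf, hstb, hfstb, -⟩ :=
    hstw ℓ F hF G n ⊤ P y₁ b w hD (Fin k → F) (mrep σ)
  have hwι : ∀ u, evV (mrep σ) w (ι u) = 0 := by
    intro u
    rw [D1.H67.evV_emb hι.int hws, hw0, map_zero]
  have hbι : ∀ u, evV (mrep σ) (bY y₁ b) (ι u) = ι u := by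
    intro u
    rw [D1.H67.evV_emb hι.int hbs, hb, Matrix.one_mulVec]
  have hfix : ∀ u, ι u ∈ fixW (mrep σ) (bY y₁ b) w := fun u => ⟨hbι u, hwι u⟩
  -- `b` acts as the identity
  have hσb : ev σ b = 1 := by
    obtain ⟨c, h4, -, h5⟩ := heig F G k σ hσ b hD.idem.1
    rcases h5 hD.idem with h6 | h6
    · exfalso
      obtain ⟨u, hu⟩ := hι.nt
      apply hu
      have h7 := hebq ℓ F G n P y₁ hD.cyc hD.card hD.mem hD.ord (Fin k → F) (mrep σ) b
        (H66.cmF_of_cl hD.idem.1 P)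
      have h8 := hprt ℓ F hF G n ⊤ P y₁ b w hD (Fin k → F) (Fin k → F) (mrep σ) (mrep σ)
        (evV (mrep σ) b - evV (mrep σ) (bY y₁ b)) (by
          intro x hx v
          rw [LinearMap.sub_apply, LinearMap.sub_apply, map_sub, hs1 x hx.2,
            H66.evV_cm (mrep σ) (H66.cmF_of_cl hD.idem.1 ⊤) (Subgroup.mem_top x)]) h7 1
        (by omega) (ι u) (hbι u) (by rw [pow_one]; exact hwι u)
      rw [LinearMap.sub_apply, hbι, D1.H67.evV_mrep, h4, h6, map_zero, Matrix.zero_mulVec,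
        zero_sub] at h8
      exact neg_mem_iff.1 h8
    · rw [h4, h6, map_one]
  refine ⟨k, σ, ι, hσ, hσb, hι, hfix, ?_⟩
  have hst : Stb (NY y₁) (mrep σ)
      (LinearMap.range ι ⊔ rngW (mrep σ) w (ℓ ^ (n + 1) - 1)) := by
    apply D1.H71.stb_sup
    · rintro g hg _ ⟨u, rfl⟩
      exact ⟨(κ ⟨g, hg⟩).mulVec u, hι.int ⟨g, hg⟩ u⟩
    · exact hstb _
  have hlt : rngW (mrep σ) w (ℓ ^ (n + 1) - 1) <
      LinearMap.range ι ⊔ rngW (mrep σ) w (ℓ ^ (n + 1) - 1) := by
    refine lt_of_le_of_ne le_sup_right fun h => ?_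
    obtain ⟨u, hu⟩ := hι.nt
    apply hu
    rw [h]
    exact Submodule.mem_sup_left ⟨u, rfl⟩
  have hle : LinearMap.range ι ⊔ rngW (mrep σ) w (ℓ ^ (n + 1) - 1) ≤
      fixW (mrep σ) (bY y₁ b) w := by
    refine sup_le ?_ hnf
    rintro _ ⟨u, rfl⟩
    exact hfix u
  have htop : (⊤ : Subgroup G).Normal := inferInstance
  obtain ⟨Z, hZ0, hZs, hZ⟩ := hkey ℓ F hF G n ⊤ P y₁ b w hD (Fin k → F) (mrep σ)
    (fun v => by rw [D1.H67.evV_mrep, hσb, Matrix.one_mulVec]) (D1.H71.nsoc_irr htop hσ)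
    (LinearMap.range ι ⊔ rngW (mrep σ) w (ℓ ^ (n + 1) - 1)) hlt hle hst
  rw [D1.H71.top_of_stb hσ hZs hZ0, top_inf_eq] at hZ
  exact hZ

/-- SUD. -/
theorem sud (hspa : SpaStmt) (hkey : KeyStmt) (hprt : PrtStmt) (hebq : EbqStmt)
    (hstw : StwStmt) (heig : EigStmt) : SudStmt := by
  classical
  intro ℓ _ F _ hF G _ _ n P y₁ b w hD A _ _ j hj hr m κ hκ hb
  have := Fintype.ofFinite A
  let e : A ≃* NY y₁ :=
    (MonoidHom.ofInjective hj).trans (MulEquiv.subgroupCongr hr)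
  have he : ∀ x, ((e x : NY y₁) : G) = j x := fun x => rfl
  let κ' : NY y₁ →* Matrix (Fin m) (Fin m) F :=
    κ.comp e.symm.toMonoidHom
  have hκe : ∀ x, κ' (e x) = κ x := by
    intro x
    change κ (e.symm (e x)) = κ x
    rw [MulEquiv.symm_apply_apply]
  have hκ' : IsIrr κ' := by
    refine ⟨hκ.1, ?_⟩
    have h1 : Set.range κ' = Set.range κ := by
      apply Set.Subset.antisymm
      · rintro _ ⟨t, rfl⟩
        exact ⟨e.symm t, rfl⟩
      · rintro _ ⟨x, rfl⟩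
        exact ⟨e x, hκe x⟩
    rw [h1]
    exact hκ.2
  have hb' : ev κ' (fun t : NY y₁ => bY y₁ b t) = 1 := by
    have := Fintype.ofFinite (NY y₁)
    rw [← hb]
    unfold ev
    rw [finsum_eq_sum_of_fintype, finsum_eq_sum_of_fintype]
    symm
    refine Fintype.sum_equiv e.toEquiv _ _ fun x => ?_
    change bY y₁ b (j x) • κ x = bY y₁ b (e x : NY y₁) • κ' (e x)
    rw [he, hκe]
  obtain ⟨k, σ, ι, hσ, hσb, hι, hfix, hle⟩ := sud_L hspa hkey hprt hebq hstw heig hF hD κ' hκ' hb'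
  obtain ⟨-, -, -, -, -, -, -, -, hstb, -, -⟩ :=
    hstw ℓ F hF G n ⊤ P y₁ b w hD (Fin k → F) (mrep σ)
  have hinj : LinearMap.ker ((rngW (mrep σ) w (ℓ ^ (n + 1) - 1)).mkQ ∘ₗ ι) = ⊥ := by
    by_contra hne
    have h1 : Stb ⊤ (mrep κ') (LinearMap.ker ((rngW (mrep σ) w (ℓ ^ (n + 1) - 1)).mkQ ∘ₗ ι)) := by
      intro x _ u hu
      rw [LinearMap.mem_ker, LinearMap.comp_apply, Submodule.mkQ_apply,
        Submodule.Quotient.mk_eq_zero] at hu ⊢
      have h2 := hstb (ℓ ^ (n + 1) - 1) x x.2 _ hu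
      rw [← hι.int] at h2
      exact h2
    have h3 := D1.H71.top_of_stb hκ' h1 hne
    obtain ⟨u, hu⟩ := hι.nt
    apply hu
    have h4 : u ∈ LinearMap.ker ((rngW (mrep σ) w (ℓ ^ (n + 1) - 1)).mkQ ∘ₗ ι) := by
      rw [h3]
      trivial
    rw [LinearMap.mem_ker, LinearMap.comp_apply, Submodule.mkQ_apply,
      Submodule.Quotient.mk_eq_zero] at h4
    exact h4
  obtain ⟨q, hq⟩ := LinearMap.exists_leftInverse_of_injective _ hinj
  have hπι : ∀ u, q ((rngW (mrep σ) w (ℓ ^ (n + 1) - 1)).mkQ (ι u)) = u :=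
    fun u => LinearMap.congr_fun hq u
  have hπ0 : ∀ v ∈ rngW (mrep σ) w (ℓ ^ (n + 1) - 1),
      q ((rngW (mrep σ) w (ℓ ^ (n + 1) - 1)).mkQ v) = 0 := by
    intro v hv
    rw [Submodule.mkQ_apply, (Submodule.Quotient.mk_eq_zero _).2 hv, map_zero]
  refine ⟨k, σ, q ∘ₗ (rngW (mrep σ) w (ℓ ^ (n + 1) - 1)).mkQ, hσ, hσb, ?_, ?_, ?_⟩
  · intro x v hv
    obtain ⟨_, ⟨u, rfl⟩, c, hc, rfl⟩ := Submodule.mem_sup.1 (hle hv)
    rw [map_add, ← he, ← hι.int, hκe, LinearMap.comp_apply, LinearMap.comp_apply, map_add, map_add,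
      map_add, map_add, hπι, hπι, hπ0 c hc, hπ0 _ (hstb _ (e x) (e x).2 c hc), add_zero,
      add_zero]
  · intro v hv
    obtain ⟨_, ⟨u, rfl⟩, c, hc, rfl⟩ := Submodule.mem_sup.1 (hle hv)
    constructor
    · intro h
      rw [LinearMap.comp_apply, map_add, map_add, hπι, hπ0 c hc, add_zero] at h
      rw [h, map_zero, zero_add]
      exact hc
    · intro h
      rw [LinearMap.comp_apply]
      exact hπ0 _ h
  · intro u
    exact ⟨ι u, hfix u, hπι u⟩

end main

end Pool.Agent.PP.CD2.H29
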