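import Pool.Agent.Helper66_D2.Stmts
import Pool.Agent.Helper27_D1.Fd1

/-!
# AWC, part D2, module FD2: the theorem on blocks of relative cyclic defect, in terms of characters
-/

open scoped BigOperators

set_option linter.unusedSectionVars false

noncomputable section

namespace Pool.Agent.PP.CD2.H29

open Pool.Agent.Helper51_AWC Pool.Agent.Helper79_WRA Pool.Agent.PP
open Pool.Agent.PP.H75 (push push_eq cj Om Bd)
open Pool.Agent.PP.D1.H27

section cyc

theorem card_mul_rel {C : Type} [Group C] {H K : Subgroup C} (h : H ≤ K) :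
    Nat.card H * H.relIndex K = Nat.card K := by
  have h1 := Subgroup.card_mul_index (H.subgroupOf K)
  rw [Nat.card_congr (Subgroup.subgroupOfEquivOfLe h).toEquiv] at h1
  exact h1

/-- an `ℓ`-subgroup is cyclic if there is a cyclic `ℓ`-subgroup of index prime to `ℓ` -/
theorem cyclic_of_sylow {C : Type} [Group C] [Finite C] {ℓ : ℕ} [Fact ℓ.Prime] {S Q : Subgroup C}
    (hS : IsPGroup ℓ S) (hi : ¬ ℓ ∣ S.index) (hc : IsCyclic S) (hQ : IsPGroup ℓ Q) :
    IsCyclic Q := by
  obtain ⟨T, hT⟩ := hQ.exists_le_sylow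
  let S' : Sylow ℓ C := hS.toSylow hi
  have e : T ≃* S' := Sylow.equiv T S'
  have h1 : IsCyclic S' := hc
  have h2 : IsCyclic T := isCyclic_of_surjective e.symm.toMonoidHom e.symm.surjective
  exact isCyclic_of_injective (Subgroup.inclusion hT) (Subgroup.inclusion_injective hT)

end cyc

section core

variable {M : Ideal (integralClosure ℤ ℂ)} {A B : Type} [Group A] [Group B] [Finite A] [Finite B]

/-- the defect of the image -/
theorem core2 (inv : InvStmt) {ℓ : ℕ} (hℓ : ℓ.Prime) [M.IsMaximal]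
    (hM : (ℓ : integralClosure ℤ ℂ) ∈ M) (fld : FldStmt) {p : A →* B}
    (hp : Function.Surjective p) (hkO : p.ker = opCore ℓ A) :
    letI := Ideal.Quotient.field M
    ∀ {ψ : A → ℂ}, ψ ∈ Irr A → ∀ {b : A → FF M}, IsBlk b → res M b ψ = 1 → CyclicDefect ℓ M ψ →
      ∀ Q : Subgroup B, IsPGroup ℓ Q → br Q (push p b) ≠ 0 → IsCyclic Q := by
  let _ := Ideal.Quotient.field M
  intro ψ hψ b hb hb1 hS Q hQ hbr
  have hF : GoodF ℓ (FF M) := fld ℓ hℓ M hM
  have hfact := Fact.mk hℓ
  obtain ⟨x, u₀, P, hx0, hPx, hPp, hPi, hPu⟩ := hS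
  have hcl : IsCl (clsum (FF M) ⊤ x) := clsum_cl x
  have hlab : res M (clsum (FF M) ⊤ x) ψ ≠ 0 := by
    rw [H75.res_clsum x]
    exact hx0
  obtain ⟨u, hu, hbu⟩ := inv ℓ (FF M) hF A b (clsum (FF M) ⊤ x) hb hcl (by
    intro n h0
    have h1 := (res_iter (M := M) hψ hcl hb.1.1 n).2
    rw [h0, H75.res_zero, hb1, mul_one] at h1
    exact pow_ne_zero n hlab h1.symm)
  have hbp : mulF (push p b) (mulF (push p (clsum (FF M) ⊤ x)) (push p u)) = push p b := by
    rw [← H75.push_mulF, ← H75.push_mulF, hbu]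
  have c1 := H75.push_isCl hp hb.1.1
  have c2 := H75.push_isCl hp hcl
  have c3 := H75.push_isCl hp hu
  have h2 : br Q (push p (clsum (FF M) ⊤ x)) ≠ 0 := by
    intro h0
    apply hbr
    rw [← hbp, H66.br_mulF hF hQ (H66.IsCl.inv c1 Q) (H66.IsCl.inv (H75.isCl_mulF c2 c3) Q),
      H66.br_mulF hF hQ (H66.IsCl.inv c2 Q) (H66.IsCl.inv c3 Q), h0, H75.mulF_zero_left,
      H75.mulF_zero_right]
  rw [push_cls p hp x, br_smul] at h2
  have hm : (mm p x : FF M) ≠ 0 := by
    intro h0
    apply h2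
    funext y
    rw [h0, zero_mul]
    rfl
  have h3 : br Q (clsum (FF M) ⊤ (p x)) ≠ 0 := by
    intro h0
    apply h2
    funext y
    rw [h0]
    exact mul_zero _
  obtain ⟨y, hy, hyne⟩ := exists_of_br_ne h3
  obtain ⟨r, hr⟩ : ∃ r, y = r * p x * r⁻¹ := by
    by_contra hcon
    exact hyne (clsum_neg hcon)
  -- `Q` centralises a conjugate of `p x`
  have hle : conjS r⁻¹ Q ≤ Subgroup.centralizer ({p x} : Set B) := by
    intro z hz
    rw [mem_conjS, inv_inv] at hz
    rw [Subgroup.mem_centralizer_singleton_iff]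
    have h4 := Subgroup.mem_centralizer_iff.1 hy _ hz
    rw [hr] at h4
    have h5 : r * (z * p x) * r⁻¹ = r * (p x * z) * r⁻¹ := by
      calc r * (z * p x) * r⁻¹ = r * z * r⁻¹ * (r * p x * r⁻¹) := by group
        _ = r * p x * r⁻¹ * (r * z * r⁻¹) := h4
        _ = r * (p x * z) * r⁻¹ := by group
    exact mul_left_cancel (mul_right_cancel h5)
  have hmℓ : ¬ ℓ ∣ mm p x := by
    intro h7
    apply hm
    have := hF.char
    exact (CharP.cast_eq_zero_iff (FF M) ℓ _).2 h7
  -- the image of `P`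
  have hkP : p.ker ≤ P := by
    rw [hkO, hPu]
    exact le_sup_left
  have hPB : P.map p = Subgroup.zpowers (p u₀) := by
    rw [hPu, Subgroup.map_sup, ← hkO, (MonoidHom.map_zpowers p u₀)]
    have h0 : p.ker.map p = ⊥ := by
      rw [Subgroup.map_eq_bot_iff]
    rw [h0, bot_sup_eq]
  have hcycP : IsCyclic (P.map p) := by
    rw [hPB]
    infer_instance
  have hSle : P.map p ≤ Subgroup.centralizer ({p x} : Set B) := by
    rintro _ ⟨z, hz, rfl⟩
    have h4 := Subgroup.mem_centralizer_singleton_iff.1 (hPx hz)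
    rw [Subgroup.mem_centralizer_singleton_iff, ← map_mul, h4, map_mul]
  have hcardP : Nat.card P = Nat.card p.ker * Nat.card (P.map p) := by
    have h4 : (P.map p).comap p = P := by
      rw [Subgroup.comap_map_eq, sup_eq_left.2 hkP]
    have h5 := H75.card_comap hp (P.map p)
    rw [h4] at h5
    exact h5
  have hidx : ¬ ℓ ∣ (P.map p).relIndex (Subgroup.centralizer ({p x} : Set B)) := by
    have h5 := card_mm hp x
    have h6 : P.relIndex (Subgroup.centralizer ({x} : Set A)) * Nat.card P =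
        Nat.card (Subgroup.centralizer ({x} : Set A)) := by
      rw [mul_comm]
      exact card_mul_rel hPx
    have h7 : (P.map p).relIndex (Subgroup.centralizer ({p x} : Set B)) *
        Nat.card (P.map p) = Nat.card (Subgroup.centralizer ({p x} : Set B)) := by
      rw [mul_comm]
      exact card_mul_rel hSle
    have h8 : (P.map p).relIndex (Subgroup.centralizer ({p x} : Set B)) * Nat.card P =
        P.relIndex (Subgroup.centralizer ({x} : Set A)) * mm p x * Nat.card P := by
      calc (P.map p).relIndex (Subgroup.centralizer ({p x} : Set B)) * Nat.card P =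
          Nat.card p.ker * ((P.map p).relIndex (Subgroup.centralizer ({p x} : Set B)) *
            Nat.card (P.map p)) := by rw [hcardP]; ring
        _ = Nat.card (Subgroup.centralizer ({x} : Set A)) * mm p x := by rw [h7, h5]
        _ = P.relIndex (Subgroup.centralizer ({x} : Set A)) * mm p x * Nat.card P := by
            rw [← h6]; ring
    have h9 := Nat.eq_of_mul_eq_mul_right (Nat.card_pos (α := P)) h8
    rw [h9, Nat.Prime.dvd_mul hℓ]
    rintro (h | h)
    · exact hPi h
    · exact hmℓ h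
  have hQ' : IsPGroup ℓ (conjS r⁻¹ Q) := by
    rw [IsPGroup.iff_card] at hQ ⊢
    rw [card_conjS]
    exact hQ
  have hQc : IsCyclic ((conjS r⁻¹ Q).subgroupOf (Subgroup.centralizer ({p x} : Set B))) := by
    refine cyclic_of_sylow (ℓ := ℓ)
      (S := (P.map p).subgroupOf (Subgroup.centralizer ({p x} : Set B))) ?_ hidx ?_ ?_
    · exact (hPp.map p).of_equiv (Subgroup.subgroupOfEquivOfLe hSle).symm
    · exact isCyclic_of_surjective (Subgroup.subgroupOfEquivOfLe hSle).symm.toMonoidHom
        (Subgroup.subgroupOfEquivOfLe hSle).symm.surjective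
    · exact hQ'.of_equiv (Subgroup.subgroupOfEquivOfLe hle).symm
  have h10 : IsCyclic (conjS r⁻¹ Q) :=
    isCyclic_of_surjective (Subgroup.subgroupOfEquivOfLe hle).toMonoidHom
      (Subgroup.subgroupOfEquivOfLe hle).surjective
  exact isCyclic_of_surjective (conjSEquiv r⁻¹ Q).symm.toMonoidHom
    (conjSEquiv r⁻¹ Q).symm.surjective

end core

section main

/-- FD2 -/
theorem fd2 (d2a : D2aStmt) (inv : InvStmt) : Fd2Stmt := by
  classical
  intro ℓ hℓ M _ hM G _ _ hc N hN χ hχ ψ hψ hχψ hL hS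
  let _ := Ideal.Quotient.field M
  have hfact := Fact.mk hℓ
  have hF : GoodF ℓ (FF M) := H50.fld ℓ hℓ M hM
  have hn := H75.opCore_normal (A := G) ℓ
  obtain ⟨e, he, h1, h2⟩ := H50.bid ℓ hℓ M hM G χ hχ
  obtain ⟨b, hb, hb1, -⟩ := H50.bid ℓ hℓ M hM N ψ hψ
  set p : G →* G ⧸ opCore ℓ G := QuotientGroup.mk' (opCore ℓ G) with hp
  have hker : p.ker = opCore ℓ G := QuotientGroup.ker_mk' _
  have hsurj : Function.Surjective p := QuotientGroup.mk'_surjective (opCore ℓ G)
  have hkp : IsPGroup ℓ p.ker := by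
    rw [hker]
    exact H75.opCore_isPGroup hℓ
  have hkc : p.ker ≤ Subgroup.center G := by
    rw [hker]
    exact hc
  have hpos : Pos ℓ (push p e) (N.map p) :=
    H75.pos_rel H96.lemQ_ H50.bid H50.fld hℓ hM hsurj hker hkc hN hχ he h1 hψ hχψ hL
  have heq := H75.altSum_central H20.nls H20.brm H63.smt H94.nch
    (H50.dic H20.ibn H20.nls H20.brm) hℓ M hM hF hsurj hker hkp hkc χ hχ e he h1 h2
  -- the sum of the conjugates of the block of `ψ`
  have hover : (∑ᶠ n : N, χ n * ψ n⁻¹) ≠ 0 := by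
    intro h0
    apply hχψ
    rw [← h0]
    apply finsum_congr
    intro n
    rw [H94.irr_star hψ]
  have hB : Bd N (ext0 N b) := ⟨hN, fun x hx => H46.ext0_of_not_mem _ hx, by
    rw [H46.restr_ext0]; exact hb⟩
  have := Fintype.ofFinite (Om (ext0 N b))
  obtain ⟨h, hh⟩ : ∃ h : G → FF M, h = fun x => ∑ f : Om (ext0 N b), f.1 x := ⟨_, rfl⟩
  have hidem : IsIdem h := by rw [hh]; exact hB.fam.isIdem
  have hsupp : ∀ x, x ∉ N → h x = 0 := by
    intro x hx
    rw [hh]
    exact Finset.sum_eq_zero fun f _ => hB.supp2 f x hx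
  have hhb : mulF h (ext0 N b) = ext0 N b := by
    have := hB.fam.mul_sum Finset.univ (Finset.mem_univ (H75.omk (ext0 N b) 1))
    rw [H75.omk_one] at this
    rw [hh]
    exact this
  have hN1 : IsIdem (fun t : N => h t) := by
    refine ⟨fun x y => hidem.1 _ _, ?_⟩
    rw [← H75.mulF_res N h hsupp, hidem.2]
  have k1 : mulF (fun t : N => h t) b = b := by
    have e1 := H75.mulF_res N (ext0 N b) hsupp
    rw [H46.restr_ext0, hhb, H46.restr_ext0] at e1
    exact e1.symm
  have k2 : res M (fun t : N => h t) ψ = 1 := by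
    have e1 := H75.res_mulF hψ hN1.1 hb.1.1
    rw [k1, hb1, mul_one] at e1
    exact e1.symm
  have k3 : res M h χ = 1 := by
    rw [H94.res_over N hN hχ hψ hover hidem.1 hsupp, k2]
  have k4 : mulF e h ≠ 0 := by
    intro h0
    have e1 := H75.res_mulF hχ he.1.1 hidem.1
    rw [h0, H75.res_zero, h1, k3, mul_one] at e1
    exact zero_ne_one e1
  have k5 : mulF e h = e := (he.2.2 h hidem).resolve_right k4
  -- the map on `N`
  have hqk : (p.subgroupMap N).ker = p.ker.subgroupOf N := by
    ext x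
    rw [MonoidHom.mem_ker, Subgroup.mem_subgroupOf, MonoidHom.mem_ker]
    constructor
    · intro h
      exact congrArg Subtype.val h
    · intro h
      exact Subtype.ext h
  have hqO : (p.subgroupMap N).ker = opCore ℓ N := by
    rw [hqk, hker, H75.opCore_sub hℓ hN]
  have hNB : (N.map p).Normal := hN.map p hsurj
  have hcyo : CyO ℓ (N.map p) (push p e) := by
    refine ⟨push p h, H75.push_isIdem hsurj hidem, push_supp p hsupp, ?_, ?_⟩
    · rw [← H75.push_mulF, k5]
    · intro Q hQN hQ hbr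
      obtain ⟨y, hy, hyne⟩ := exists_of_br_ne hbr
      rw [hh, push_fsum] at hyne
      obtain ⟨f, -, hf⟩ := Finset.exists_ne_zero_of_sum_ne_zero hyne
      obtain ⟨g, rfl⟩ := H75.omk_surj f
      change push p (cj g (ext0 N b)) y ≠ 0 at hf
      rw [push_cj, H75.push_ext0, cj] at hf
      have hyN : (p g)⁻¹ * y * p g ∈ N.map p := by
        by_contra hcon
        exact hf (H46.ext0_of_not_mem _ hcon)
      rw [H46.ext0_of_mem _ hyN] at hf
      have hle : conjS (p g)⁻¹ Q ≤ N.map p := by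
        intro z hz
        rw [mem_conjS, inv_inv] at hz
        have h3 := hNB.conj_mem _ (hQN hz) (p g)⁻¹
        have h4 : (p g)⁻¹ * (p g * z * (p g)⁻¹) * (p g)⁻¹⁻¹ = z := by group
        rwa [h4] at h3
      have h5 := core2 inv hℓ hM H50.fld (p.subgroupMap_surjective N) hqO hψ hb hb1 hS
        ((conjS (p g)⁻¹ Q).subgroupOf (N.map p)) ?_ (br_ne_of
          (y := ⟨(p g)⁻¹ * y * p g, hyN⟩) ?_ hf)
      · have h6 : IsCyclic (conjS (p g)⁻¹ Q) :=
          isCyclic_of_surjective (Subgroup.subgroupOfEquivOfLe hle).toMonoidHom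
            (Subgroup.subgroupOfEquivOfLe hle).surjective
        exact isCyclic_of_surjective (conjSEquiv (p g)⁻¹ Q).symm.toMonoidHom
          (conjSEquiv (p g)⁻¹ Q).symm.surjective
      · have hQ' : IsPGroup ℓ (conjS (p g)⁻¹ Q) := by
          rw [IsPGroup.iff_card] at hQ ⊢
          rw [card_conjS]
          exact hQ
        exact hQ'.of_equiv (Subgroup.subgroupOfEquivOfLe hle).symm
      · rw [Subgroup.mem_centralizer_iff]
        intro z hz
        have hz' : (z : G ⧸ opCore ℓ G) ∈ conjS (p g)⁻¹ Q := hz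
        rw [mem_conjS, inv_inv] at hz'
        have h6 := Subgroup.mem_centralizer_iff.1 hy _ hz'
        apply Subtype.ext
        change (z : G ⧸ opCore ℓ G) * ((p g)⁻¹ * y * p g) = (p g)⁻¹ * y * p g * z
        calc (z : G ⧸ opCore ℓ G) * ((p g)⁻¹ * y * p g) =
            (p g)⁻¹ * ((p g * z * (p g)⁻¹) * y) * p g := by group
          _ = (p g)⁻¹ * (y * (p g * z * (p g)⁻¹)) * p g := by rw [h6]
          _ = (p g)⁻¹ * y * p g * z := by group
  have h0 : YY ℓ (⊤ : Subgroup (G ⧸ opCore ℓ G)) (push p e) = 0 :=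
    d2a ℓ (FF M) hF _ (N.map p) hNB _ (H75.push_isIdem hsurj he.1) hpos hcyo
  rw [h0, mul_zero] at heq
  rcases mul_eq_zero.1 heq with h | h
  · exact absurd h (by exact_mod_cast (Nat.card_pos (α := G)).ne')
  · exact h

end main

end Pool.Agent.PP.CD2.H29
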